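import Pool.Agent.W394.BQN.Stm

/-!
# The induced map `VV V → VV W` of a finite map is finite
-/

set_option autoImplicit false

open Polynomial

noncomputable section

namespace Pool.Agent.W73.BQN

open Pool.Agent.W394.BQN BQ

theorem S2_map {V W : Type} [CommRing V] [IsDomain V] [CommRing W] [IsDomain W]
    (i : V →+* W) {f : V[X]} (hf : f ∈ S2 V) : f.map i ∈ S2 W := by
  obtain ⟨h1, h2⟩ := hf
  have h1' : f.Monic := h1
  refine ⟨(h1'.map i).leadingCoeff, ?_⟩
  have hne : f.map i ≠ 0 := (h1'.map i).ne_zero
  have hc : (f.map i).coeff f.natTrailingDegree = 1 := by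
    rw [coeff_map]
    have h3 : f.coeff f.natTrailingDegree = 1 := h2
    rw [h3, map_one]
  have hd : (f.map i).natTrailingDegree = f.natTrailingDegree := by
    apply le_antisymm
    · apply natTrailingDegree_le_of_ne_zero
      rw [hc]
      exact one_ne_zero
    · apply le_natTrailingDegree hne
      intro m hm
      rw [coeff_map, coeff_eq_zero_of_lt_natTrailingDegree hm, map_zero]
  show (f.map i).coeff (f.map i).natTrailingDegree = 1
  rw [hd, hc]

theorem t_QV (h : S_INT) : S_QV := by
  intro V W _ _ _ _ i hi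
  have hg : ∀ y : S2 V, IsUnit (((algebraMap W[X] (VV W)).comp (mapRingHom i)) (y : V[X])) := by
    intro y
    exact IsLocalization.map_units (VV W) (⟨(y : V[X]).map i, S2_map i y.2⟩ : S2 W)
  let i' : VV V →+* VV W := IsLocalization.lift (M := S2 V) hg
  have hi' : ∀ f : V[X], i' (algebraMap V[X] (VV V) f) = algebraMap W[X] (VV W) (f.map i) := by
    intro f
    exact IsLocalization.lift_eq hg f
  refine ⟨i', ?_, hi'⟩
  letI : Algebra (VV V) (VV W) := i'.toAlgebra
  have hsm : ∀ (a : VV V) (b : VV W), a • b = i' a * b := fun a b => rfl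
  letI : Algebra V W := i.toAlgebra
  have hsm2 : ∀ (a : V) (b : W), a • b = i a * b := fun a b => rfl
  have hfin : Module.Finite V W := hi
  obtain ⟨⟨s, hs⟩⟩ := hfin
  show Module.Finite (VV V) (VV W)
  let t : Set (VV W) := (fun w : W => algebraMap W[X] (VV W) (C w)) '' (s : Set W)
  have htf : t.Finite := (s.finite_toSet).image _
  refine ⟨⟨htf.toFinset, ?_⟩⟩
  rw [Set.Finite.coe_toFinset]
  have hmono : ∀ (w : W) (n : ℕ),
      algebraMap W[X] (VV W) (C w * X ^ n) ∈ Submodule.span (VV V) t := by
    intro w n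
    have hw : w ∈ Submodule.span V (s : Set W) := by
      rw [hs]
      exact Submodule.mem_top
    induction hw using Submodule.span_induction with
    | mem x hx =>
      have h1 : algebraMap W[X] (VV W) (C x * X ^ n) =
          (algebraMap V[X] (VV V) (X ^ n)) • algebraMap W[X] (VV W) (C x) := by
        rw [hsm, hi', Polynomial.map_pow, Polynomial.map_X, map_mul, mul_comm]
      rw [h1]
      exact Submodule.smul_mem _ _ (Submodule.subset_span ⟨x, hx, rfl⟩)
    | zero =>
      rw [map_zero, zero_mul, map_zero]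
      exact Submodule.zero_mem _
    | add x y _ _ hx hy =>
      rw [map_add, add_mul, map_add]
      exact Submodule.add_mem _ hx hy
    | smul a x _ hx =>
      have h1 : algebraMap W[X] (VV W) (C (a • x) * X ^ n) =
          (algebraMap V[X] (VV V) (C a)) • algebraMap W[X] (VV W) (C x * X ^ n) := by
        rw [hsm, hi', Polynomial.map_C, hsm2, map_mul C, mul_assoc, map_mul (algebraMap W[X] (VV W))]
      rw [h1]
      exact Submodule.smul_mem _ _ hx
  have hpoly : ∀ c : W[X], algebraMap W[X] (VV W) c ∈ Submodule.span (VV V) t := by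
    intro c
    induction c using Polynomial.induction_on' with
    | add p q hp hq =>
      rw [map_add]
      exact Submodule.add_mem _ hp hq
    | monomial n a =>
      rw [← C_mul_X_pow_eq_monomial]
      exact hmono a n
  rw [Submodule.eq_top_iff']
  intro z
  obtain ⟨⟨c, f⟩, hz⟩ := IsLocalization.surj (S2 W) z
  obtain ⟨g, hgS, k, hk⟩ := h V W i hi (f : W[X]) f.2
  have hu : IsUnit (algebraMap V[X] (VV V) g) :=
    IsLocalization.map_units (VV V) (⟨g, hgS⟩ : S2 V)
  obtain ⟨u, hu⟩ := hu
  have h2 : z = ((u⁻¹ : (VV V)ˣ) : VV V) • algebraMap W[X] (VV W) (c * k) := by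
    have h3 : i' (u : VV V) * z = algebraMap W[X] (VV W) (c * k) := by
      rw [hu, hi', hk, map_mul, map_mul, ← hz]
      ring
    rw [hsm, ← h3, ← mul_assoc, ← map_mul, Units.inv_mul, map_one, one_mul]
  rw [h2]
  exact Submodule.smul_mem _ _ (hpoly _)

end Pool.Agent.W73.BQN
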